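import Mathlib
import Pool.Agent.H.MP_c4ba3a_an.A

open Set Filter Topology Complex MeasureTheory
open scoped ContDiff

namespace Pool.Agent.Results.MP_c4ba3a_an.Counter

/-- Lie algebra generated by the smooth sections of the complex tangent bundle of `Θ(ℝ^d)`,
written in the parameter space. -/
inductive Gen {d n : ℕ} (Θ : (Fin d → ℝ) → Fin n → ℂ) : ((Fin d → ℝ) → Fin d → ℝ) → Prop
  | base (X) : ContDiff ℝ ∞ X → (∀ p, ∃ v, I • fderiv ℝ Θ p (X p) = fderiv ℝ Θ p v) → Gen Θ X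
  | br (X Y) : Gen Θ X → Gen Θ Y → Gen Θ (VectorField.lieBracket ℝ X Y)

open Pool.Agent.H.MP_c4ba3a_an in
theorem result : ∃ (n N d : ℕ) (Θ : (Fin d → ℝ) → Fin n → ℂ) (p₀ : Fin d → ℝ)
    (f : (Fin n → ℂ) → EuclideanSpace ℂ (Fin N)),
    n < N ∧ AnalyticOnNhd ℝ Θ univ ∧ IsEmbedding Θ ∧ (∀ p, Function.Injective (fderiv ℝ Θ p)) ∧
    (∀ p v, ∃ a b, v = fderiv ℝ Θ p a + I • fderiv ℝ Θ p b) ∧
    Submodule.span ℝ {v | ∃ X, Gen Θ X ∧ X p₀ = v} = ⊤ ∧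
    ContinuousOn f (range Θ) ∧ (∀ p, ‖f (Θ p)‖ = 1) ∧
    (∀ (j : Fin N) (Z : (Fin d → ℝ) → Fin d → ℂ), ContDiff ℝ ∞ Z → HasCompactSupport Z →
      (∀ p, ∑ l, Z p l • fderiv ℝ Θ p (Pi.single l 1) = 0) →
      ∫ p, f (Θ p) j * ∑ l, fderiv ℝ (fun q => Z q l) p (Pi.single l 1) = 0) ∧
    (∃ (Q : (Fin n → ℂ) → ℂ) (R : (Fin n → ℂ) → EuclideanSpace ℂ (Fin N)),
      AnalyticOnNhd ℂ Q univ ∧ AnalyticOnNhd ℂ R univ ∧
      ∀ p ≠ p₀, Q (Θ p) ≠ 0 ∧ f (Θ p) = (Q (Θ p))⁻¹ • R (Θ p)) ∧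
    ¬ ∃ U ∈ 𝓝 (Θ p₀), ∃ F : (Fin n → ℂ) → EuclideanSpace ℂ (Fin N),
      DifferentiableOn ℂ F U ∧ ∀ p, Θ p ∈ U → F (Θ p) = f (Θ p) := by
  refine ⟨4, 5, 6, Θ, 0, f, by norm_num, fun p _ => aΘ p, emb, inj, gen, ?_, ?_, nrm,
    fun j Z => cr j, ⟨fun z => (z 2 + I) * D z, R, fun z _ => ?_, fun z _ => ?_, fun p h =>
      ⟨mul_ne_zero (s0 (mem p)) fun e => ne h (D0 (mem p) e), mer (mem p) (ne h)⟩⟩,
    fun ⟨U, hU, F, hF, h⟩ => noext hU hF h⟩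
  · have g0 : Gen Θ (V 0 1 4 2) := .base _ (sV ..) fun p => ⟨V 1 0 4 (-2) p, by
      rw [dΘ, dΘ]; ext i; fin_cases i <;> simp [V, Complex.ext_iff]⟩
    have g1 : Gen Θ (V 1 0 4 (-2)) := .base _ (sV ..) fun p => ⟨-V 0 1 4 2 p, by
      rw [dΘ, dΘ]; ext i; fin_cases i <;> simp [V, Complex.ext_iff]⟩
    have g2 : Gen Θ (V 2 3 5 2) := .base _ (sV ..) fun p => ⟨V 3 2 5 (-2) p, by
      rw [dΘ, dΘ]; ext i; fin_cases i <;> simp [V, Complex.ext_iff]⟩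
    have g3 : Gen Θ (V 3 2 5 (-2)) := .base _ (sV ..) fun p => ⟨-V 2 3 5 2 p, by
      rw [dΘ, dΘ]; ext i; fin_cases i <;> simp [V, Complex.ext_iff]⟩
    rw [eq_top_iff, ← (Pi.basisFun ℝ (Fin 6)).span_eq, Submodule.span_le]
    rintro _ ⟨i, rfl⟩
    have m : ∀ (c : ℝ) X, Gen Θ X → Pi.basisFun ℝ (Fin 6) i = c • X 0 →
        Pi.basisFun ℝ (Fin 6) i ∈ Submodule.span ℝ {v | ∃ X, Gen Θ X ∧ X 0 = v} := fun c X h e =>
      e ▸ Submodule.smul_mem _ _ (Submodule.subset_span ⟨X, h, rfl⟩)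
    fin_cases i
    · exact m 1 _ g0 (by simp [V])
    · exact m 1 _ g1 (by simp [V])
    · exact m 1 _ g2 (by simp [V])
    · exact m 1 _ g3 (by simp [V])
    · refine m (-1 / 4) _ (.br _ _ g0 g1) ?_
      rw [VectorField.lieBracket, dV, dV, ← sub_smul, smul_smul]
      simp [V]; norm_num
    · refine m (-1 / 4) _ (.br _ _ g2 g3) ?_
      rw [VectorField.lieBracket, dV, dV, ← sub_smul, smul_smul]
      simp [V]; norm_num
  · refine ContinuousOn.mono (s := W) ?_ (range_subset_iff.2 mem)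
    exact (PiLp.continuous_toLp 2 _).comp_continuousOn (continuousOn_pi.2 cf)
  · exact (show AnalyticAt ℂ (fun z : E => z 2 + I) z by fun_prop).mul (aD z)
  · refine ((EuclideanSpace.equiv (Fin 5) ℂ).symm.analyticAt _).comp (f := fun z j => R z j)
      (AnalyticAt.pi fun j => ?_)
    have := fun k => (show AnalyticAt ℂ (fun z : E => 2 * z 0) z by fun_prop).mul (aA k z)
    fin_cases j
    exacts [this 0, this 1, this 2,
      (show AnalyticAt ℂ (fun z : E => z 2 - I) z by fun_prop).mul (aD z), analyticAt_const (v := 0)]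

end Pool.Agent.Results.MP_c4ba3a_an.Counter
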